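import Pool.Agent.Helper787.RNValdivia

set_option autoImplicit false

/-!
# Supports and tightness of Radon-Nikodym Valdivia compact spaces

Let `K` be a compact Hausdorff space which is Radon-Nikodym, and embed `K` in a power of the real
line so that the points with countable support are dense (such an embedding exists exactly if `K` is
Valdivia). Then every point of `K` has support of size at most `ℵ₁`, and the tightness of `K` is at
most `ℵ₁`. In particular `K` contains no copy of `[0, ω₂]`.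
-/

open Cardinal Topology Set
open scoped Ordinal

namespace Pool.Agent.Results.MP_3028b5_gt.SupportsAndTightness

universe u

/-- `A` is a `Σ`-subset of `K`: for some homeomorphic embedding of `K` into a power of the real
line, `A` consists of the points of `K` with countable support. -/
def IsSigmaSubset {K : Type u} [TopologicalSpace K] (A : Set K) : Prop :=
  ∃ (Γ : Type u) (h : K → Γ → ℝ), Topology.IsEmbedding h ∧ A = {x | {γ | h x γ ≠ 0}.Countable}

/-- `K` is Valdivia: it has a dense `Σ`-subset. -/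
def IsValdivia (K : Type u) [TopologicalSpace K] : Prop :=
  ∃ A : Set K, Dense A ∧ IsSigmaSubset A

/-- `K` is Radon-Nikodym: there is a lower semicontinuous metric `d` on `K` that fragments `K`,
i.e. every nonempty subset `L` has, for every `ε > 0`, a nonempty relatively open subset `U ∩ L`
whose `d`-diameter is less than `ε`. -/
def IsRadonNikodym (K : Type u) [TopologicalSpace K] : Prop :=
  ∃ d : K → K → ℝ,
    (∀ x y, 0 ≤ d x y) ∧ (∀ x y, d x y = 0 ↔ x = y) ∧ (∀ x y, d x y = d y x) ∧
    (∀ x y z, d x z ≤ d x y + d y z) ∧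
    LowerSemicontinuous (fun p : K × K => d p.1 p.2) ∧
    ∀ L : Set K, L.Nonempty → ∀ ε : ℝ, 0 < ε → ∃ U : Set K, IsOpen U ∧ (U ∩ L).Nonempty ∧
      ∃ η < ε, ∀ x ∈ U ∩ L, ∀ y ∈ U ∩ L, d x y ≤ η

/-- The tightness of `K` is at most `ℵ₁`: every point of the closure of a set `B` lies in the
closure of a subset of `B` of size at most `ℵ₁`. -/
def TightnessLeAlephOne (K : Type u) [TopologicalSpace K] : Prop :=
  ∀ (B : Set K) (q : K), q ∈ closure B → ∃ B' ⊆ B, #B' ≤ ℵ₁ ∧ q ∈ closure B'

theorem supports {K : Type u} [TopologicalSpace K] [CompactSpace K] (hRN : IsRadonNikodym K)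
    (Γ : Type u) (h : K → Γ → ℝ) (hemb : IsEmbedding h)
    (hA : Dense {x : K | {γ | h x γ ≠ 0}.Countable}) (q : K) : #{γ | h q γ ≠ 0} ≤ ℵ₁ := by
  obtain ⟨d, h0, h1, _, _, hlsc, hfrag⟩ := hRN
  refine Pool.Agent.Helper787.RNValdivia.card_supp_le hemb hA (d := d) ?_ hlsc ?_ q
  · intro x y hxy
    exact lt_of_le_of_ne (h0 x y) (fun e => hxy ((h1 x y).mp e.symm))
  · intro L hL ε hε
    obtain ⟨U, hU, hne, η, hη, hd⟩ := hfrag L hL ε hε
    exact ⟨U, hU, hne, fun x hx y hy => (hd x hx y hy).trans_lt hη⟩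

open Pool.Agent.Helper787.RNValdivia in
theorem tightness {K Γ : Type u} [TopologicalSpace K] [CompactSpace K] {h : K → Γ → ℝ}
    (hemb : IsEmbedding h) (hsupp : ∀ q : K, #{γ | h q γ ≠ 0} ≤ ℵ₁) : TightnessLeAlephOne K := by
  intro B q hq
  choose b hbmem hb using fun l k => exists_approx hemb hq l k
  obtain ⟨C, hC⟩ : ∃ C : Set Γ, C = clo (fun l => ⋃ k, {γ | h (b l k) γ ≠ 0})
      {γ | h q γ ≠ 0} := ⟨_, rfl⟩
  have hCcard : #C ≤ ℵ₁ := by
    rw [hC]
    refine clo_card (aleph0_le_aleph 1) (fun l => ?_) (hsupp _)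
    exact card_iUnion_nat_le (aleph0_le_aleph 1) _ (fun k => hsupp _)
  obtain ⟨x, hx, hx2⟩ := restrict_mem hemb b hb (hC ▸ clo_isCl _ _)
  have hx3 : h x = h q := by
    rw [hx2]
    ext γ
    by_cases hγ : γ ∈ C
    · rw [indicator_of_mem hγ]
    · rw [indicator_of_notMem hγ]
      by_contra hne
      apply hγ
      rw [hC]
      exact sub_clo _ _ (fun h0 => hne h0.symm)
  rw [hemb.injective hx3] at hx
  refine ⟨{y | ∃ l k, (∀ γ ∈ l, γ ∈ C) ∧ y = b l k}, ?_, ?_, hx⟩
  · rintro _ ⟨l, k, -, rfl⟩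
    exact hbmem l k
  · have hsub : {y | ∃ l k, (∀ γ ∈ l, γ ∈ C) ∧ y = b l k} ⊆
        range (fun i : List C × ULift.{u} ℕ => b (i.1.map Subtype.val) i.2.down) := by
      rintro _ ⟨l, k, hl, rfl⟩
      refine ⟨(l.attach.map (fun x => ⟨x.1, hl x.1 x.2⟩), ⟨k⟩), ?_⟩
      have h3 : (l.attach.map (fun x => (⟨x.1, hl x.1 x.2⟩ : C))).map Subtype.val = l := by
        simp [List.map_map, Function.comp_def]
      simp only [h3]
    refine (mk_le_mk_of_subset hsub).trans (mk_range_le.trans ?_)
    rw [mk_prod, lift_id, lift_id]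
    calc #(List C) * #(ULift.{u} ℕ) ≤ ℵ₁ * ℵ₁ := by
          refine mul_le_mul' ?_ ?_
          · exact (mk_list_le_max _).trans (max_le (aleph0_le_aleph 1) hCcard)
          · have : #(ULift.{u} ℕ) = ℵ₀ := by simp
            rw [this]
            exact aleph0_le_aleph 1
      _ = ℵ₁ := mul_eq_self (aleph0_le_aleph 1)

/-- Let `K` be a compact Hausdorff space that is Radon-Nikodym and Valdivia. (1) For every
homeomorphic embedding of `K` in a power of the real line for which the points with countable support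
are dense, all points of `K` have support of size at most `ℵ₁`. (2) The tightness of `K` is at
most `ℵ₁`. (3) No subspace of `K` is homeomorphic to `[0, ω₂]`. -/
theorem result (K : Type u) [TopologicalSpace K] [CompactSpace K] [T2Space K]
    (hRN : IsRadonNikodym K) (hV : IsValdivia K) :
    (∀ (Γ : Type u) (h : K → Γ → ℝ), IsEmbedding h →
      Dense {x : K | {γ | h x γ ≠ 0}.Countable} → ∀ q : K, #{γ | h q γ ≠ 0} ≤ ℵ₁) ∧
    TightnessLeAlephOne K ∧
    ¬ ∃ f : Set.Iic (Ordinal.omega.{u} 2) → K, Topology.IsEmbedding f := by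
  refine ⟨supports hRN, ?_, ?_⟩
  · obtain ⟨A, hA, Γ, h, hemb, rfl⟩ := hV
    exact tightness hemb (supports hRN Γ h hemb hA)
  · obtain ⟨A, hA, Γ, h, hemb, rfl⟩ := hV
    have := Pool.Agent.Helper787.RNValdivia.no_copy hemb (supports hRN Γ h hemb hA)
    rwa [Cardinal.ord_aleph] at this

end Pool.Agent.Results.MP_3028b5_gt.SupportsAndTightness
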